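import Pool.Agent.Iso79.Final
import Pool.Agent.Iso79.IsoRiem

/-!
# Isospectral manifolds covered by `SU(3)/SO(3)` are isometric

`XX` is the symmetric space `SU(3)/SO(3)`, realised as the set of the symmetric matrices in `SU(3)`
(`g SO(3)` corresponds to `g gᵀ`), with the Riemannian metric `Re tr (A Bᴴ)`.
If two finite groups of isometries act freely on `XX` and the quotients are isospectral, then the
groups are conjugate in the isometry group, so the quotients are isometric.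
-/

namespace Pool.Agent.Results.MP_92ba8c_gt.SpectrumDetermines

open Pool.Agent.Iso79

/-- Let `Γ₁`, `Γ₂` be finite groups of Riemannian isometries of `XX = SU(3)/SO(3)` which act freely.
If `XX/Γ₁` and `XX/Γ₂` are isospectral, then `Γ₂ = ψ Γ₁ ψ⁻¹` for an isometry `ψ` of `XX`, so that
`ψ` induces an isometry of `XX/Γ₁` onto `XX/Γ₂`. -/
theorem result (Γ₁ Γ₂ : Subgroup (Equiv.Perm XX)) (hf₁ : Finite Γ₁) (hf₂ : Finite Γ₂)
    (hi₁ : ∀ γ ∈ Γ₁, IsIsom γ) (hi₂ : ∀ γ ∈ Γ₂, IsIsom γ)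
    (ha₁ : ActsFreely Γ₁) (ha₂ : ActsFreely Γ₂) (hs : Isospectral Γ₁ Γ₂) :
    ∃ ψ : Equiv.Perm XX, IsIsom ψ ∧ Γ₂ = Γ₁.map (MulAut.conj ψ).toMonoidHom := by
  obtain ⟨g, hg⟩ := Pool.Agent.Iso79.main Γ₁ Γ₂ hf₁ hf₂ (fun γ h => isom_preservesLap (hi₁ γ h))
    (fun γ h => isom_preservesLap (hi₂ γ h)) ha₁ ha₂ hs
  exact ⟨tau g, isIsom_tau g, hg⟩

end Pool.Agent.Results.MP_92ba8c_gt.SpectrumDetermines
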